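import Mathlib
import Pool.Agent.R463.PP11
import Pool.Agent.R463.LinAP2
import Pool.Agent.Y879.GL.Pattern

set_option autoImplicit false

/-!
# Residues and gaps of consecutive almost prime twins

All twin prime pairs except `(3, 5)` are of the form `(6 m - 1, 6 m + 1)`. If only the primes up to a small
power of `X` are used for sifting, the residues modulo 4 (and modulo any `6 q`) and the gaps of any number of
consecutive pairs are asymptotically independent and equidistributed, in all short intervals.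
-/

namespace Pool.Agent.Results.MP_74f661_nt.ConsecutiveAlmostTwins

open Finset Filter
open Pool.Agent.R463.PP

/-- neither `6 m - 1` nor `6 m + 1` has a prime factor `p ≤ X ^ (1 / r)` -/
def AlmostTwin (X r m : ℕ) : Prop :=
  ∀ p : ℕ, p.Prime → (p : ℝ) ≤ (X : ℝ) ^ (1 / (r : ℝ)) → ¬ (p : ℤ) ∣ 6 * m - 1 ∧ ¬ (p : ℤ) ∣ 6 * m + 1

/-- the first `AlmostTwin` after `m` -/
noncomputable def next (X r m : ℕ) : ℕ := sInf {n | m < n ∧ AlmostTwin X r n}

/-- the product of `1 - 2 / p` over the primes `3 < p ≤ X ^ (1 / r)` -/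
noncomputable def V (X r : ℕ) : ℝ :=
  ∏ p ∈ (Icc 1 ⌊(X : ℝ) ^ (1 / (r : ℝ))⌋₊).filter (fun p => p.Prime ∧ 3 < p), (1 - 2 / (p : ℝ))

/-- the residues `a` modulo `q` for which `(6 a - 1) (6 a + 1)` is prime to `q` -/
def Classes (q : ℕ) : Finset ℕ :=
  (range q).filter (fun a => ∀ p ∈ q.primeFactors, ¬ (p : ℤ) ∣ 6 * a - 1 ∧ ¬ (p : ℤ) ∣ 6 * a + 1)

/-- The number of the `m` in `(Z, Z + Y]` with `AlmostTwin m` and `m ≡ a (mod q)` such that the next `K`
elements `m_1 < m_2 < ... < m_K` of `AlmostTwin` after `m = m_0` satisfy `m_(j + 1) ≡ b j (mod q)` and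
`s j < m_(j + 1) - m_j ≤ t j` for all `j < K`. -/
noncomputable def Runs (X r q K a : ℕ) (b s t : ℕ → ℕ) (Z Y : ℕ) : ℕ :=
  Set.ncard {m : ℕ | Z < m ∧ m ≤ Z + Y ∧ AlmostTwin X r m ∧ m % q = a ∧
    ∀ j < K, (next X r)^[j + 1] m % q = b j ∧ s j < (next X r)^[j + 1] m - (next X r)^[j] m ∧
      (next X r)^[j + 1] m - (next X r)^[j] m ≤ t j}

/-- The number of the `m` in `(Z, Z + Y]` with `AlmostTwin m` and `6 m - 1 ≡ c 0 (mod 4)` such that the next `K`
elements `m_1 < m_2 < ... < m_K` of `AlmostTwin` after `m = m_0` satisfy `6 m_j - 1 ≡ c j (mod 4)` for all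
`j ≤ K`. -/
noncomputable def Mod4 (X r K : ℕ) (c : ℕ → ℤ) (Z Y : ℕ) : ℕ :=
  Set.ncard {m : ℕ | Z < m ∧ m ≤ Z + Y ∧ AlmostTwin X r m ∧
    ∀ j ≤ K, (6 * (((next X r)^[j] m : ℕ) : ℤ) - 1) % 4 = c j}

/-- the coefficients -/
def ca : Fin 2 → ℤ := fun _ => 6

/-- the constant terms -/
def cb : Fin 2 → ℤ := ![-1, 1]

lemma adm : Pool.Agent.R463.PS.AdmL ca cb := by
  refine ⟨fun _ => by norm_num [ca], fun p hp => ⟨0, fun i h => ?_⟩⟩
  have h1 : (p : ℤ) ∣ 1 := by
    fin_cases i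
    · have h2 : (p : ℤ) ∣ 6 * ((0 : ℕ) : ℤ) + (-1) := h
      norm_num at h2
      exact h2
    · have h2 : (p : ℤ) ∣ 6 * ((0 : ℕ) : ℤ) + 1 := h
      norm_num at h2
      exact h2
  exact hp.one_lt.ne' (Nat.dvd_one.1 (by exact_mod_cast h1))

/-- the system of the two forms -/
noncomputable def sy : Fin 2 → Polynomial ℤ := Pool.Agent.R463.PS.ls ca cb

lemma sys (H U : ℝ) (hH : 6 ≤ H) : Pool.Agent.R463.PS.System 1 H U sy := by
  refine Pool.Agent.R463.PS.lin_system adm H U (fun _ => ?_) (fun i => ?_) (fun i j t ht _ h => ?_)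
  · unfold ca
    norm_num
    exact hH
  · fin_cases i
    · show |(((-1 : ℤ) : ℤ) : ℝ)| ≤ H
      norm_num
      linarith
    · show |(((1 : ℤ) : ℤ) : ℝ)| ≤ H
      norm_num
      linarith
  · have h2 := h.2
    fin_cases i <;> fin_cases j
    · have h3 : (-1 : ℤ) = -1 + 6 * (t : ℤ) := h2
      omega
    · have h3 : (-1 : ℤ) = 1 + 6 * (t : ℤ) := h2
      omega
    · have h3 : (1 : ℤ) = -1 + 6 * (t : ℤ) := h2
      omega
    · have h3 : (1 : ℤ) = 1 + 6 * (t : ℤ) := h2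
      omega

lemma dv (p : ℕ) (x : ℤ) : (∃ i, (p : ℤ) ∣ ca i * x + cb i) ↔ (p : ℤ) ∣ 6 * x - 1 ∨ (p : ℤ) ∣ 6 * x + 1 := by
  constructor
  · rintro ⟨i, hi⟩
    fin_cases i
    · left
      exact hi
    · right
      exact hi
  · rintro (h | h)
    · exact ⟨0, h⟩
    · exact ⟨1, h⟩

lemma twin_iff (X r m : ℕ) : AlmostTwin X r m ↔ Pool.Agent.R463.PS.Sifted sy X r m := by
  unfold sy
  rw [Pool.Agent.R463.PS.ls_sift]
  unfold AlmostTwin
  apply forall₃_congr
  intro p _ _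
  rw [← not_or, ← dv, not_exists]

lemma next_eq (X r : ℕ) : next X r = Pool.Agent.R463.PP.next (Pool.Agent.R463.PS.Sifted sy X r) := by
  funext m
  unfold next Pool.Agent.R463.PP.next
  simp only [twin_iff]

lemma eval_dv (p a : ℕ) : (∀ i, ¬ (p : ℤ) ∣ (sy i).eval (a : ℤ)) ↔
    ¬ (p : ℤ) ∣ 6 * a - 1 ∧ ¬ (p : ℤ) ∣ 6 * a + 1 := by
  rw [← not_or, ← dv, not_exists]
  unfold sy Pool.Agent.R463.PS.ls
  simp only [Pool.Agent.Y879.GL.lf_eval]

lemma classes_eq (q : ℕ) (hq : 1 ≤ q) : Classes q = Cl sy q := by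
  classical
  unfold Classes Cl
  apply filter_congr
  intro a _
  constructor
  · intro h p hp hpq
    rw [eval_dv]
    exact h p (Nat.mem_primeFactors.2 ⟨hp, hpq, by omega⟩)
  · intro h p hp
    rw [← eval_dv]
    exact h p (Nat.prime_of_mem_primeFactors hp) (Nat.dvd_of_mem_primeFactors hp)

lemma om_small (p : ℕ) (h : p ∣ 6) (hp : p.Prime) : Pool.Agent.R463.PS.om sy p = 0 := by
  classical
  unfold sy
  rw [Pool.Agent.R463.PS.ls_om, card_eq_zero]
  apply filter_false_of_mem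
  intro n _ hn
  rw [dv] at hn
  have h6 : (p : ℤ) ∣ 6 * (n : ℤ) := Dvd.dvd.mul_right (by exact_mod_cast h) _
  have h1 : (p : ℤ) ∣ 1 := by
    rcases hn with hn | hn
    · have := dvd_sub h6 hn
      simpa using this
    · have := dvd_sub hn h6
      simpa using this
  exact hp.one_lt.ne' (Nat.dvd_one.1 (by exact_mod_cast h1))

lemma om_large (p : ℕ) (hp : p.Prime) (h3 : 3 < p) : Pool.Agent.R463.PS.om sy p = 2 := by
  classical
  unfold sy
  rw [Pool.Agent.R463.PS.ls_om]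
  have hpp : Prime (p : ℤ) := Nat.prime_iff_prime_int.1 hp
  have hp6 : ¬ (p : ℤ) ∣ 6 := by
    intro h
    have h1 : p ∣ 6 := by exact_mod_cast h
    have h2 : p ≤ 6 := Nat.le_of_dvd (by norm_num) h1
    interval_cases p
    · revert h1; norm_num
    · revert h1; norm_num
    · revert hp; norm_num
  apply le_antisymm
  · -- at most two roots
    obtain ⟨x, hx, hx1⟩ := Pool.Agent.R463.LA.exists_rootZ 6 (-1) p hp hp6
    obtain ⟨y, hy, hy1⟩ := Pool.Agent.R463.LA.exists_rootZ 6 1 p hp hp6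
    have hsub : (range p).filter (fun n : ℕ => ∃ i, (p : ℤ) ∣ ca i * n + cb i) ⊆ {x, y} := by
      intro n hn
      rw [mem_filter, mem_range, dv] at hn
      rw [mem_insert, mem_singleton]
      have key : ∀ z : ℕ, z < p → (p : ℤ) ∣ 6 * ((n : ℤ) - z) → n = z := by
        intro z hz hd
        have h1 : (p : ℤ) ∣ (n : ℤ) - z := (hpp.dvd_or_dvd hd).resolve_left hp6
        have h2 := Int.emod_emod_of_dvd
        have h3 : (n : ℤ) ≡ z [ZMOD p] := (Int.modEq_iff_dvd.2 (by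
          have := h1.neg_right
          rwa [neg_sub] at this))
        have h4 : n ≡ z [MOD p] := Int.natCast_modEq_iff.1 h3
        exact Nat.ModEq.eq_of_lt_of_lt h4 hn.1 hz
      rcases hn.2 with h | h
      · left
        apply key x hx
        have := dvd_sub h hx1
        have e : 6 * (n : ℤ) - 1 - (6 * (x : ℤ) + -1) = 6 * ((n : ℤ) - x) := by ring
        rwa [e] at this
      · right
        apply key y hy
        have := dvd_sub h hy1
        have e : 6 * (n : ℤ) + 1 - (6 * (y : ℤ) + 1) = 6 * ((n : ℤ) - y) := by ring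
        rwa [e] at this
    exact (card_le_card hsub).trans (card_le_two)
  · obtain ⟨x, hx, hx1⟩ := Pool.Agent.R463.LA.exists_rootZ 6 (-1) p hp hp6
    obtain ⟨y, hy, hy1⟩ := Pool.Agent.R463.LA.exists_rootZ 6 1 p hp hp6
    have hne : x ≠ y := by
      rintro rfl
      have := dvd_sub hy1 hx1
      have e : 6 * (x : ℤ) + 1 - (6 * (x : ℤ) + -1) = 2 := by ring
      rw [e] at this
      have h1 : p ∣ 2 := by exact_mod_cast this
      have := Nat.le_of_dvd (by norm_num) h1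
      omega
    refine (card_pair hne).symm.le.trans (card_le_card ?_)
    intro z hz
    rw [mem_insert, mem_singleton] at hz
    rw [mem_filter, mem_range, dv]
    rcases hz with rfl | rfl
    · exact ⟨hx, Or.inl (by
        have e : 6 * (z : ℤ) - 1 = 6 * (z : ℤ) + -1 := by ring
        rw [e]
        exact hx1)⟩
    · exact ⟨hy, Or.inr hy1⟩

lemma V_eq (X r : ℕ) : V X r = Pool.Agent.R463.PS.V sy X r := by
  classical
  unfold V Pool.Agent.R463.PS.V
  rw [← Finset.filter_filter]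
  rw [Finset.prod_filter (fun p : ℕ => 3 < p)]
  apply prod_congr rfl
  intro p hp
  have hpp := (mem_filter.1 hp).2
  by_cases h : 3 < p
  · rw [if_pos h, om_large p hpp h]
    norm_num
  · rw [if_neg h]
    have h2 : p ∣ 6 := by
      have := hpp.two_le
      have h3 : p ≤ 3 := by omega
      interval_cases p <;> norm_num
    rw [om_small p h2 hpp]
    simp

theorem V_upper (r : ℕ) (hr : 2 ≤ r) : ∃ C : ℝ, 0 < C ∧ ∀ᶠ X : ℕ in atTop,
    V X r ≤ C / Real.log X := by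
  obtain ⟨M, hM, h⟩ := Pool.Agent.R463.LA.V_two adm 0 1 (by norm_num [ca, cb]) 0 r hr
  refine ⟨M, hM, ?_⟩
  filter_upwards [h] with X hX
  have h1 := hX 1 0 le_rfl (by simp) (fun i => by
    rw [Nat.cast_one]
    exact isCoprime_one_left)
  have h2 : Pool.Agent.R463.LA.VL ca cb 1 X r = Pool.Agent.R463.PS.V sy X r := by
    have := Pool.Agent.R463.LA.V_eq ca cb 1 0 X r (fun i => by
      rw [Nat.cast_one]
      exact isCoprime_one_left)
    have e1 : Pool.Agent.R463.LA.ca ca 1 = ca := by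
      funext i
      unfold Pool.Agent.R463.LA.ca
      simp
    have e2 : Pool.Agent.R463.LA.cb ca cb 0 = cb := by
      funext i
      unfold Pool.Agent.R463.LA.cb
      simp
    rw [this, e1, e2]
    rfl
  rw [V_eq, ← h2]
  exact h1

lemma few {X r n : ℕ} (hr : 1 ≤ r) (hX : (7 : ℝ) ≤ (X : ℝ) ^ (1 / (r : ℝ))) (hn : n ≠ 0)
    (hnX : n ≤ 7 * X) (h : ∀ p : ℕ, p.Prime → (p : ℝ) ≤ (X : ℝ) ^ (1 / (r : ℝ)) → ¬ p ∣ n) :
    n.primeFactorsList.length ≤ r + 1 := by
  have hr1 : (0 : ℝ) < r := by exact_mod_cast (by omega : 0 < r)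
  refine Pool.Agent.Y879.GL.few_of_rough ((X : ℝ) ^ (1 / (r : ℝ))) (by linarith) n (r + 1) hn ?_
    (fun q hq hqm => ?_)
  · have e : ((X : ℝ) ^ (1 / (r : ℝ))) ^ r = X := by
      rw [← Real.rpow_natCast, ← Real.rpow_mul (Nat.cast_nonneg _), one_div, inv_mul_cancel₀ hr1.ne',
        Real.rpow_one]
    rw [pow_succ, e]
    have h1 : (n : ℝ) ≤ 7 * X := by exact_mod_cast hnX
    have h2 : (X : ℝ) * 7 ≤ X * (X : ℝ) ^ (1 / (r : ℝ)) := mul_le_mul_of_nonneg_left hX (Nat.cast_nonneg _)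
    linarith
  · by_contra hcon
    push Not at hcon
    exact h q hq hcon hqm

lemma mod4_eq (X r K : ℕ) (c : ℕ → ℤ) (hc : ∀ j ≤ K, c j = 1 ∨ c j = 3) (Z Y : ℕ) :
    Mod4 X r K c Z Y = Set.ncard {m : ℕ | Z < m ∧ m ≤ Z + Y ∧
      RunC (Pool.Agent.R463.PS.Sifted sy X r) 2 K (if c 0 = 3 then 0 else 1)
        (fun j => if c (j + 1) = 3 then 0 else 1) m} := by
  unfold Mod4
  congr 1
  ext m
  rw [Set.mem_ofPred_eq, Set.mem_ofPred_eq]
  unfold RunC
  rw [twin_iff, next_eq]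
  have key : ∀ (n : ℕ) (γ : ℤ), (γ = 1 ∨ γ = 3) → ((6 * (n : ℤ) - 1) % 4 = γ ↔
      n % 2 = if γ = 3 then 0 else 1) := by
    intro n γ hγ
    rcases hγ with rfl | rfl
    · rw [if_neg (by norm_num)]
      omega
    · rw [if_pos rfl]
      omega
  apply and_congr_right
  intro _
  apply and_congr_right
  intro _
  apply and_congr_right
  intro _
  constructor
  · intro h
    refine ⟨(key m (c 0) (hc 0 (Nat.zero_le _))).1 (h 0 (Nat.zero_le _)), fun j hj => ?_⟩
    exact (key _ (c (j + 1)) (hc (j + 1) hj)).1 (h (j + 1) hj)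
  · rintro ⟨h1, h2⟩ j hj
    rcases j with _ | j
    · exact (key m (c 0) (hc 0 hj)).2 h1
    · exact (key _ (c (j + 1)) (hc (j + 1) hj)).2 (h2 j hj)

lemma classes_two : Classes 2 = {0, 1} := by
  unfold Classes
  rw [Nat.Prime.primeFactors Nat.prime_two]
  ext a
  simp only [mem_filter, mem_range, mem_insert, mem_singleton, forall_eq]
  constructor
  · rintro ⟨h, _⟩
    omega
  · intro h
    refine ⟨by omega, ?_, ?_⟩ <;> push_cast <;> omega

/-- the law of the residues modulo 4 -/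
theorem mod4_law (θ : ℝ) (hθ : 0 < θ) (K : ℕ) (ε : ℝ) (hε : 0 < ε) :
    ∃ r₀ : ℕ, 2 ≤ r₀ ∧ ∀ r : ℕ, r₀ ≤ r → ∀ᶠ X : ℕ in atTop, ∀ Z Y : ℕ, (X : ℝ) ^ θ ≤ Y →
      ∀ c : ℕ → ℤ, (∀ j ≤ K, c j = 1 ∨ c j = 3) →
        |(Mod4 X r K c Z Y : ℝ) - Y * V X r / 2 ^ (K + 1)| ≤ ε * (Y * V X r) := by
  obtain ⟨r₀, h⟩ := joint_full 2 1 2 K (by norm_num) 1 1 θ one_pos one_pos hθ ε hε
  refine ⟨max r₀ 2, le_max_right _ _, fun r hr => ?_⟩
  obtain ⟨C, hC, hV⟩ := V_upper r ((le_max_right _ _).trans hr)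
  filter_upwards [h r ((le_max_left _ _).trans hr) C, hV, eventually_ge_atTop 6] with X h1 h2 h3 Z Y hY c hc
  have hX6 : (6 : ℝ) ≤ (X : ℝ) ^ (1 : ℝ) := by
    rw [Real.rpow_one]
    exact_mod_cast h3
  have hcl : Cl sy 2 = {0, 1} := by rw [← classes_eq 2 (by norm_num), classes_two]
  rw [V_eq] at h2 ⊢
  have hmem : ∀ γ : ℤ, (if γ = 3 then 0 else 1 : ℕ) ∈ Cl sy 2 := by
    intro γ
    rw [hcl]
    split_ifs <;> simp
  have h4 := (h1 sy (sys _ _ hX6) h2 Z Y hY _ (hmem (c 0)) (fun j => if c (j + 1) = 3 then 0 else 1)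
    (fun j _ => hmem (c (j + 1)))).2
  rw [mod4_eq X r K c hc, ]
  rw [hcl] at h4
  have hc2 : ((({0, 1} : Finset ℕ)).card : ℝ) = 2 := by norm_num
  rw [hc2] at h4
  exact h4

/-- **Consecutive almost prime twins modulo 4 and their gaps.** Let `θ > 0`, `K ≥ 0`, `q ≥ 1` and `ε > 0`.
There is `r₀` such that for all `r ≥ r₀` and all large `X`:
(1) if `1 ≤ m ≤ X` and neither `6 m - 1` nor `6 m + 1` has a prime factor `p ≤ X ^ (1 / r)`, then both have at
most `r + 1` prime factors;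
(2) in every interval `(Z, Z + Y]` with `Y ≥ X ^ θ`, for all classes `a`, `b j` modulo `q` prime to
`(6 a - 1) (6 a + 1)` and all bounds `s j ≤ t j` for the gaps, the number `Runs` is
`Y V / φ ^ (K + 1) * ∏_{j < K} (exp (- V (s j)) - exp (- V (t j)))` up to `ε Y V`, where `φ` is the number of
these classes;
(3) in every such interval, all `2 ^ (K + 1)` patterns of the residues modulo 4 of `K + 1` consecutive first
members `6 m - 1` are equally frequent: each occurs `Y V / 2 ^ (K + 1)` times, up to `ε Y V`;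
(4) in every such interval, among the pairs starting with a given pattern of `K + 1` residues modulo 4, the
proportion of those whose next (the `(K + 1)`-st) successor is in a given class modulo 4 is `1 / 2`, up to `ε`;
for `K = 0` this is the analogue of the question. -/
theorem result (θ : ℝ) (hθ : 0 < θ) (K q : ℕ) (hq : 1 ≤ q) (ε : ℝ) (hε : 0 < ε) :
    ∃ r₀ : ℕ, ∀ r : ℕ, r₀ ≤ r → ∀ᶠ X : ℕ in atTop,
      (∀ m : ℕ, 1 ≤ m → m ≤ X → AlmostTwin X r m →
        (6 * m - 1).primeFactorsList.length ≤ r + 1 ∧ (6 * m + 1).primeFactorsList.length ≤ r + 1) ∧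
      ∀ Z Y : ℕ, (X : ℝ) ^ θ ≤ Y →
        (∀ a ∈ Classes q, ∀ b s t : ℕ → ℕ, (∀ j < K, b j ∈ Classes q) → (∀ j < K, s j ≤ t j) →
          |(Runs X r q K a b s t Z Y : ℝ) - Y * V X r / (Classes q).card ^ (K + 1) *
            ∏ j ∈ range K, (Real.exp (-(V X r * s j)) - Real.exp (-(V X r * t j)))| ≤ ε * (Y * V X r)) ∧
        (∀ c : ℕ → ℤ, (∀ j ≤ K, c j = 1 ∨ c j = 3) →
          |(Mod4 X r K c Z Y : ℝ) - Y * V X r / 2 ^ (K + 1)| ≤ ε * (Y * V X r)) ∧
        ∀ c : ℕ → ℤ, (∀ j ≤ K + 1, c j = 1 ∨ c j = 3) →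
          |(Mod4 X r (K + 1) c Z Y : ℝ) / Mod4 X r K c Z Y - 1 / 2| ≤ ε := by
  obtain ⟨η, hη⟩ : ∃ η : ℝ, η = min (ε / (4 * 2 ^ (K + 1))) (1 / (4 * 2 ^ (K + 1))) := ⟨_, rfl⟩
  have hP : (0 : ℝ) < 4 * 2 ^ (K + 1) := by positivity
  have hη0 : 0 < η := by rw [hη]; positivity
  have hη1 : η * (4 * 2 ^ (K + 1)) ≤ ε := by
    rw [← le_div_iff₀ hP, hη]
    exact min_le_left _ _
  have hη2 : η * (4 * 2 ^ (K + 1)) ≤ 1 := by
    rw [← le_div_iff₀ hP, hη]
    exact min_le_right _ _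
  obtain ⟨r1, h⟩ := joint_full 2 1 q K hq 1 1 θ one_pos one_pos hθ ε hε
  obtain ⟨r2, hr2, hA⟩ := mod4_law θ hθ K (min ε η) (by positivity)
  obtain ⟨r3, hr3, hB⟩ := mod4_law θ hθ (K + 1) η hη0
  refine ⟨max r1 (max r2 r3), fun r hr => ?_⟩
  have hr1 : r1 ≤ r := (le_max_left _ _).trans hr
  have hr2' : r2 ≤ r := (le_max_left _ _).trans ((le_max_right _ _).trans hr)
  have hr3' : r3 ≤ r := (le_max_right _ _).trans ((le_max_right _ _).trans hr)
  have hrr : (0 : ℝ) < r := by exact_mod_cast (by omega : 0 < r)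
  obtain ⟨C, hC, hV⟩ := V_upper r (hr2.trans hr2')
  have hlarge : ∀ᶠ X : ℕ in atTop, (7 : ℝ) ≤ (X : ℝ) ^ (1 / (r : ℝ)) :=
    ((tendsto_rpow_atTop (by positivity)).comp tendsto_natCast_atTop_atTop).eventually_ge_atTop _
  filter_upwards [h r hr1 C, hV, eventually_ge_atTop 6, hA r hr2', hB r hr3', hlarge] with X h1 h2 h3 hA hB h7
  have hX6 : (6 : ℝ) ≤ (X : ℝ) ^ (1 : ℝ) := by
    rw [Real.rpow_one]
    exact_mod_cast h3
  refine ⟨?_, ?_⟩
  · intro m hm1 hmX hm
    constructor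
    · apply few (by omega) h7 (by omega) (by omega)
      intro p hp hpX hd
      apply (hm p hp hpX).1
      have h4 : (p : ℤ) ∣ ((6 * m - 1 : ℕ) : ℤ) := Int.natCast_dvd_natCast.2 hd
      rw [Nat.cast_sub (by omega)] at h4
      push_cast at h4
      exact h4
    · apply few (by omega) h7 (by omega) (by omega)
      intro p hp hpX hd
      apply (hm p hp hpX).2
      exact_mod_cast Int.natCast_dvd_natCast.2 hd
  · intro Z Y hY
    have hVX : 0 < V X r := by
      rw [V_eq, Pool.Agent.R463.PS.V_eq]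
      exact Pool.Agent.TH464.PO.Vq_pos _
        (fun p hp => Pool.Agent.Y879.GL.us_adm (sys _ 1 hX6).us p hp) _
    have hYpos : (0 : ℝ) < Y := by
      refine lt_of_lt_of_le ?_ hY
      apply Real.rpow_pos_of_pos
      exact_mod_cast (by omega : 0 < X)
    have hYV : 0 < Y * V X r := by positivity
    refine ⟨?_, ?_, ?_⟩
    · intro a ha b s t hb hst
      rw [classes_eq q hq] at ha hb ⊢
      have h2' := h2
      rw [V_eq] at h2' ⊢
      have h4 := (h1 sy (sys _ _ hX6) h2' Z Y hY a ha b hb).1 s t hst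
      have e : Runs X r q K a b s t Z Y = Set.ncard {n : ℕ | Z < n ∧ n ≤ Z + Y ∧
          Run (Pool.Agent.R463.PS.Sifted sy X r) q K a b s t n} := by
        unfold Runs Run
        rw [next_eq]
        simp only [twin_iff]
      rw [e]
      exact h4
    · intro c hc
      refine (hA Z Y hY c hc).trans ?_
      exact mul_le_mul_of_nonneg_right (min_le_left _ _) hYV.le
    · intro c hc
      have ha := hA Z Y hY c (fun j hj => hc j (by omega))
      have hb := hB Z Y hY c hc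
      have ha' : |(Mod4 X r K c Z Y : ℝ) - Y * V X r / 2 ^ (K + 1)| ≤ η * (Y * V X r) :=
        ha.trans (mul_le_mul_of_nonneg_right (min_le_right _ _) hYV.le)
      obtain ⟨a1, a2⟩ := abs_le.1 ha'
      obtain ⟨b1, b2⟩ := abs_le.1 hb
      obtain ⟨W, hW⟩ : ∃ W : ℝ, W = Y * V X r / 2 ^ (K + 1) := ⟨_, rfl⟩
      have hW0 : 0 < W := by rw [hW]; positivity
      have hW1 : Y * V X r / 2 ^ (K + 1 + 1) = W / 2 := by
        rw [hW, pow_succ _ (K + 1)]
        field_simp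
      have hW2 : η * (Y * V X r) = η * 2 ^ (K + 1) * W := by
        rw [hW]
        field_simp
      rw [hW1, hW2] at b1 b2
      rw [← hW, hW2] at a1 a2
      obtain ⟨γ, hγ⟩ : ∃ γ : ℝ, γ = η * 2 ^ (K + 1) := ⟨_, rfl⟩
      have hγ1 : 4 * γ ≤ ε := by rw [hγ]; linarith
      have hγ2 : 4 * γ ≤ 1 := by rw [hγ]; linarith
      have hγ0 : 0 < γ := by rw [hγ]; positivity
      rw [← hγ] at a1 a2 b1 b2
      obtain ⟨M, hM⟩ : ∃ M : ℝ, M = Mod4 X r K c Z Y := ⟨_, rfl⟩
      obtain ⟨N, hN⟩ : ∃ N : ℝ, N = Mod4 X r (K + 1) c Z Y := ⟨_, rfl⟩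
      rw [← hM] at a1 a2 ⊢
      rw [← hN] at b1 b2 ⊢
      have hγW : γ * W ≤ 1 / 4 * W := mul_le_mul_of_nonneg_right (by linarith) hW0.le
      have hM0 : 0 < M := by linarith
      have hMW : W ≤ 2 * M := by linarith
      rw [div_sub' hM0.ne', abs_div, abs_of_pos hM0, div_le_iff₀ hM0]
      have h8 : |N - M * (1 / 2)| ≤ 3 / 2 * (γ * W) := by
        rw [abs_le]
        constructor <;> linarith
      refine h8.trans ?_
      have h9 : γ * W ≤ γ * (2 * M) := mul_le_mul_of_nonneg_left hMW hγ0.le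
      have h10 : 4 * γ * M ≤ ε * M := mul_le_mul_of_nonneg_right hγ1 hM0.le
      have h11 : 0 < γ * M := mul_pos hγ0 hM0
      linarith

end Pool.Agent.Results.MP_74f661_nt.ConsecutiveAlmostTwins
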