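import Mathlib
import Pool.Agent.R960.Fam.Norm2

set_option autoImplicit false

/-!
# Residues of consecutive twins in random models of the primes

The integers are decided one after the other; no independence is assumed.  Fix a finite set `Q` of
primes containing `2`; multiples of the primes of `Q` are never chosen and the other integers `n + 1` are
chosen with conditional probability `(1 + o(1)) ∏_{p ∈ Q} (1 - 1/p)⁻¹ / log n`.  Almost surely there are
infinitely many twins (pairs `n`, `n + 2` of chosen integers) and, for every modulus `q` all of whose prime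
factors are in `Q`, the sequence of the residues modulo `q` of the twins is a NORMAL sequence: every
finite string of admissible residues occurs with the same frequency.  In particular (`q = 4`) the
proportions `δ₂(x; 4; a | b)` of the problem tend to `1/2`.
-/

open MeasureTheory Filter
open scoped Topology

namespace Pool.Agent.Results.MP_74f661_nt.ResiduesInSievedModels

/-- the conditional probability that `n + 1` is chosen, given the information up to `n` -/
noncomputable def density {Ω : Type} {mΩ : MeasurableSpace Ω} (μ : Measure Ω) (ℱ : Filtration ℕ mΩ)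
    (A : ℕ → Set Ω) (n : ℕ) : Ω → ℝ := μ[(A (n + 1)).indicator (fun _ => (1 : ℝ)) | ℱ n]

/-- the first members of the twins of `S` -/
def twins (S : Set ℕ) : Set ℕ := {n | n ∈ S ∧ n + 2 ∈ S}

/-- the `n`-th first member of a twin of `S`, in increasing order, starting with `n = 0` -/
noncomputable def tw (S : Set ℕ) (n : ℕ) : ℕ := Nat.nth (· ∈ twins S) n

/-- `b` is a residue modulo `q` with `b` and `b + 2` prime to `q` -/
def Admissible (q b : ℕ) : Prop := b < q ∧ Nat.Coprime b q ∧ Nat.Coprime (b + 2) q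

/-- the number of admissible residues modulo `q` -/
noncomputable def classes (q : ℕ) : ℕ := {b | Admissible q b}.ncard

/-- the proportion of the `n < N` such that the twins number `n, …, n + r` have the residues `a 0, …, a r` -/
noncomputable def freq (S : Set ℕ) (q r : ℕ) (a : ℕ → ℕ) (N : ℕ) : ℝ :=
  ({n : ℕ | n < N ∧ ∀ i, i ≤ r → tw S (n + i) % q = a i}.ncard : ℝ) / N

/-- the quantity `δ₂(x; 4; a | b)` of the problem -/
noncomputable def delta (S : Set ℕ) (a b x : ℕ) : ℝ :=
  ({n : ℕ | tw S n ≤ x ∧ tw S n % 4 = a ∧ tw S (n + 1) % 4 = b}.ncard : ℝ) / {n : ℕ | tw S n ≤ x ∧ tw S n % 4 = a}.ncard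

lemma Adm_card (q : ℕ) : (Pool.Agent.R960.Fam.Adm q).card = classes q := by
  classical
  unfold classes
  rw [← Set.ncard_coe_finset]
  congr 1
  ext b
  rw [Finset.mem_coe, Pool.Agent.R960.Fam.mem_Adm]
  rfl

lemma Adm_four : Pool.Agent.R960.Fam.Adm 4 = {1, 3} := by
  classical
  ext b
  rw [Pool.Agent.R960.Fam.mem_Adm]
  unfold Pool.Agent.R960.Fam.adm
  simp only [Finset.mem_insert, Finset.mem_singleton]
  constructor
  · rintro ⟨h1, h2, h3⟩
    interval_cases b
    · exact absurd h2 (by decide)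
    · exact Or.inl rfl
    · exact absurd h2 (by decide)
    · exact Or.inr rfl
  · rintro (rfl | rfl)
    · exact ⟨by decide, by decide, by decide⟩
    · exact ⟨by decide, by decide, by decide⟩

end Pool.Agent.Results.MP_74f661_nt.ResiduesInSievedModels

open Pool.Agent.Results.MP_74f661_nt.ResiduesInSievedModels

theorem Pool.Agent.Results.MP_74f661_nt.ResiduesInSievedModels.result
    {Ω : Type} [mΩ : MeasurableSpace Ω] (μ : Measure Ω) [IsProbabilityMeasure μ]
    (ℱ : Filtration ℕ mΩ) (A : ℕ → Set Ω) (hA : ∀ n, MeasurableSet[ℱ n] (A n))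
    (Q : Finset ℕ) (hQ : ∀ p ∈ Q, p.Prime) (h2 : 2 ∈ Q) (hcop : ∀ n, (∃ p ∈ Q, p ∣ n) → A n = ∅)
    (hd : ∀ᵐ ω ∂μ, Tendsto (fun n : ℕ => density μ ℱ A n ω * Real.log n)
        (atTop ⊓ 𝓟 {n : ℕ | ∀ p ∈ Q, ¬ p ∣ n + 1}) (𝓝 (∏ p ∈ Q, (1 - 1 / (p : ℝ))⁻¹))) :
    ∀ᵐ ω ∂μ,
      (twins {n | ω ∈ A n}).Infinite ∧
      (∀ q : ℕ, 0 < q → (∀ p, p.Prime → p ∣ q → p ∈ Q) → ∀ (r : ℕ) (a : ℕ → ℕ), (∀ i, i ≤ r → Admissible q (a i)) →
        Tendsto (freq {n | ω ∈ A n} q r a) atTop (𝓝 (1 / (classes q : ℝ) ^ (r + 1)))) ∧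
      ∀ a ∈ ({1, 3} : Finset ℕ), ∀ b ∈ ({1, 3} : Finset ℕ),
        Tendsto (delta {n | ω ∈ A n} a b) atTop (𝓝 (1 / 2)) := by
  classical
  filter_upwards [Pool.Agent.R960.Fam.equi_all (μ := μ) hA Q hQ hcop hd h2] with ω hω
  have hTw : Pool.Agent.R960.Fam.Tw A ω = twins {n | ω ∈ A n} := rfl
  have hprime4 : ∀ p : ℕ, p.Prime → p ∣ 4 → p ∈ Q := by
    intro p hp hd4
    have h3 : p ∣ 2 ^ 2 := by norm_num; exact hd4
    have h4 := (Nat.prime_dvd_prime_iff_eq hp Nat.prime_two).1 (hp.dvd_of_dvd_pow h3)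
    rw [h4]
    exact h2
  have hT : (twins {n | ω ∈ A n}).Infinite := by
    have h3 := Pool.Agent.R960.Fam.infinite_of_num (hω 4 (by norm_num) hprime4).1
    rwa [hTw] at h3
  have hfr : ∀ q : ℕ, 0 < q → (∀ p, p.Prime → p ∣ q → p ∈ Q) → ∀ (r : ℕ) (a : ℕ → ℕ), (∀ i, i ≤ r → Admissible q (a i)) →
        Tendsto (freq {n | ω ∈ A n} q r a) atTop (𝓝 (1 / (classes q : ℝ) ^ (r + 1))) := by
    intro q hq0 hq r a ha
    obtain ⟨g1, g2⟩ := hω q hq0 hq
    have hadm : ∀ n ∈ Pool.Agent.R960.Fam.Tw A ω, Pool.Agent.R960.Fam.adm q (n % q) := by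
      intro n hn
      have hnd : ∀ m, ω ∈ A m → ∀ p, p.Prime → p ∣ q → ¬ p ∣ m := by
        intro m hm p hp hpq hpm
        rw [hcop m ⟨p, hq p hp hpq, hpm⟩] at hm
        exact hm
      have hc : ∀ j, ω ∈ A (n + j) → Nat.Coprime (n % q + j) q := by
        intro j hj
        rw [Nat.coprime_comm]
        refine Nat.Coprime.symm (Nat.Coprime.symm ?_)
        by_contra hne
        obtain ⟨p, hp, hp1, hp2⟩ := Nat.Prime.not_coprime_iff_dvd.1 hne
        apply hnd (n + j) hj p hp hp1
        have e1 : n + j ≡ n % q + j [MOD p] :=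
          Nat.ModEq.add_right j ((Nat.mod_modEq n q).symm.of_dvd hp1)
        exact (e1.dvd_iff dvd_rfl).2 hp2
      exact ⟨Nat.mod_lt n hq0, hc 0 hn.1, hc 2 hn.2⟩
    have g3 := Pool.Agent.R960.Fam.normal_of_equi (T := Pool.Agent.R960.Fam.Tw A ω) hT hadm g1 g2 r a ha
    rw [Adm_card] at g3
    exact g3
  refine ⟨hT, hfr, ?_⟩
  intro a ha b hb
  have hcl : classes 4 = 2 := by
    rw [← Adm_card, Adm_four]
    rfl
  have hadm4 : ∀ c ∈ ({1, 3} : Finset ℕ), Admissible 4 c := by
    intro c hc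
    rw [← Adm_four] at hc
    exact Pool.Agent.R960.Fam.mem_Adm.1 hc
  have f1 := hfr 4 (by norm_num) hprime4 1 (fun i => if i = 0 then a else b) (by
    intro i _
    show Admissible 4 (if i = 0 then a else b)
    split_ifs
    · exact hadm4 a ha
    · exact hadm4 b hb)
  have f0 := hfr 4 (by norm_num) hprime4 0 (fun _ => a) (fun _ _ => hadm4 a ha)
  rw [hcl] at f1 f0
  set T := twins {n | ω ∈ A n} with hTdef
  -- number of twins up to `x`
  have hcnt : ∀ x n : ℕ, tw {n | ω ∈ A n} n ≤ x ↔ n < Nat.count (· ∈ T) (x + 1) := by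
    intro x n
    rw [Nat.lt_nth_iff_count_lt (p := (· ∈ T)) hT |>.symm.symm] <;> exact Nat.lt_succ_iff.symm
  have hc : Tendsto (fun x => Nat.count (· ∈ T) (x + 1)) atTop atTop := by
    refine tendsto_atTop.2 fun m => ?_
    filter_upwards [eventually_ge_atTop (tw {n | ω ∈ A n} m)] with x hx
    exact ((hcnt x m).1 hx).le
  have e1 : ∀ x, delta {n | ω ∈ A n} a b x =
      freq {n | ω ∈ A n} 4 1 (fun i => if i = 0 then a else b) (Nat.count (· ∈ T) (x + 1)) /
        freq {n | ω ∈ A n} 4 0 (fun _ => a) (Nat.count (· ∈ T) (x + 1)) ∨ Nat.count (· ∈ T) (x + 1) = 0 := by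
    intro x
    rcases Nat.eq_zero_or_pos (Nat.count (· ∈ T) (x + 1)) with h0 | h0
    · exact Or.inr h0
    left
    unfold delta freq
    have s1 : {n : ℕ | tw {n | ω ∈ A n} n ≤ x ∧ tw {n | ω ∈ A n} n % 4 = a ∧ tw {n | ω ∈ A n} (n + 1) % 4 = b} =
        {n : ℕ | n < Nat.count (· ∈ T) (x + 1) ∧ ∀ i, i ≤ 1 → tw {n | ω ∈ A n} (n + i) % 4 = if i = 0 then a else b} := by
      ext n
      simp only [Set.mem_ofPred_eq]
      rw [hcnt]
      refine and_congr_right fun _ => ?_
      constructor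
      · rintro ⟨k1, k2⟩ i hi
        interval_cases i
        · simpa using k1
        · simpa using k2
      · intro k
        have k1 := k 0 (by norm_num)
        have k2 := k 1 le_rfl
        simp only [Nat.add_zero, if_true, one_ne_zero, if_false] at k1 k2
        exact ⟨k1, k2⟩
    have s2 : {n : ℕ | tw {n | ω ∈ A n} n ≤ x ∧ tw {n | ω ∈ A n} n % 4 = a} =
        {n : ℕ | n < Nat.count (· ∈ T) (x + 1) ∧ ∀ i, i ≤ 0 → tw {n | ω ∈ A n} (n + i) % 4 = a} := by
      ext n
      simp only [Set.mem_ofPred_eq]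
      rw [hcnt]
      refine and_congr_right fun _ => ?_
      constructor
      · intro k1 i hi
        interval_cases i
        simpa using k1
      · intro k
        simpa using k 0 le_rfl
    rw [s1, s2]
    have h0' : ((Nat.count (· ∈ T) (x + 1) : ℕ) : ℝ) ≠ 0 := by exact_mod_cast h0.ne'
    rw [div_div_div_cancel_right₀ h0']
  have f2 := (f1.comp hc).div (f0.comp hc) (by norm_num)
  have e2 : (1 / ((2 : ℕ) : ℝ) ^ (1 + 1)) / (1 / ((2 : ℕ) : ℝ) ^ (0 + 1)) = 1 / 2 := by norm_num
  rw [e2] at f2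
  refine f2.congr' ?_
  filter_upwards [hc.eventually_gt_atTop 0] with x hx
  rcases e1 x with h3 | h3
  · exact h3.symm
  · omega
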