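import Mathlib
import Pool.Agent.R177.TR.Prob

set_option autoImplicit false

/-!
# Residues modulo 4 of consecutive twin pairs in sieved random models of the primes

For twin primes the question is whether, given the residue modulo 4 of a twin pair, the next pair has
each of the two residues with limiting frequency `1/2`; numerically a pair with the OTHER residue is
slightly more frequent at every height.

We settle the model form of the question, with the second order term, in EVERY sequential random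
model of the primes sieved by a fixed `Q` divisible by `6`: the integers are decided one after the
other, only integers coprime to `Q` can be chosen, and the conditional probability of choosing `n + 1`
(coprime to `Q`) given the past is asymptotic to `(Q / φ(Q)) / log n`; no independence is assumed.
Almost surely there are infinitely many pairs and all four frequencies `δ₂(x;4;a|b)` tend to `1/2`.
If the conditional probabilities are `(Q / φ(Q)) / log n + o(1 / (log n)³)`, then almost surely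
`δ₂(x;4;a|b) = 1/2 ± (Q / φ(Q))² / (4 (log x)²) (1 + o(1))`, with the sign `+` for `a ≠ b` and `-` for
`a = b`.  So the pattern observed for the primes, `δ₂(x;4;a|a) < 1/2 < δ₂(x;4;a|b)` for `a ≠ b`,
holds in almost every outcome for all large `x`.
-/

open MeasureTheory Filter
open scoped Topology

namespace Pool.Agent.Results.MP_74f661_nt.TwinResiduesSievedModels

/-- the first members of the pairs `n, n + 2` of `S` -/
def twins (S : Set ℕ) : Set ℕ := {n | n ∈ S ∧ n + 2 ∈ S}

/-- the least element of `T` larger than `n` -/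
noncomputable def next (T : Set ℕ) (n : ℕ) : ℕ := sInf {m | m ∈ T ∧ n < m}

/-- `π₂(x;4;a)`: the number of elements of `T` up to `x` congruent to `a` modulo `4` -/
noncomputable def cnt (T : Set ℕ) (a x : ℕ) : ℕ := {n | n ≤ x ∧ n ∈ T ∧ n % 4 = a}.ncard

/-- `π₂(x;4;a|b)`: those for which the next element of `T` is congruent to `b` modulo `4` -/
noncomputable def cntNext (T : Set ℕ) (a b x : ℕ) : ℕ :=
  {n | n ≤ x ∧ n ∈ T ∧ n % 4 = a ∧ next T n % 4 = b}.ncard

/-- `δ₂(x;4;a|b)` -/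
noncomputable def delta (T : Set ℕ) (a b x : ℕ) : ℝ := (cntNext T a b x : ℝ) / cnt T a x

open Pool.Agent.R528.RM Pool.Agent.R177.TR

lemma cnt_eq (T : Set ℕ) (a x : ℕ) : (cnt T a x : ℝ) = ca T a (x + 1) := by
  classical
  unfold cnt ca
  have h : {n | n ≤ x ∧ n ∈ T ∧ n % 4 = a} = ↑((Finset.range (x + 1)).filter (fun n => n ∈ T ∧ n % 4 = a)) := by
    ext n
    simp only [Set.mem_ofPred_eq, Finset.coe_filter, Finset.mem_range, Nat.lt_succ_iff]
  rw [h, Set.ncard_coe_finset, Finset.sum_boole]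

lemma cntNext_eq (T : Set ℕ) (a b x : ℕ) : (cntNext T a b x : ℝ) = cn T a b (x + 1) := by
  classical
  unfold cntNext cn
  have h : {n | n ≤ x ∧ n ∈ T ∧ n % 4 = a ∧ next T n % 4 = b} =
      ↑((Finset.range (x + 1)).filter (fun n => n ∈ T ∧ n % 4 = a ∧ nx T (n + 1) % 4 = b)) := by
    ext n
    simp only [Set.mem_ofPred_eq, Finset.coe_filter, Finset.mem_range, Nat.lt_succ_iff]
    rfl
  rw [h, Set.ncard_coe_finset, Finset.sum_boole]

lemma delta_eq (T : Set ℕ) (a b x : ℕ) : delta T a b x = cn T a b (x + 1) / ca T a (x + 1) := by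
  unfold delta
  rw [cnt_eq, cntNext_eq]

/-- from the three sums to the frequencies -/
lemma final {T : Set ℕ} (hT : ∀ n ∈ T, n % 4 = 1 ∨ n % 4 = 3) (r : ℕ) {dl lam : ℝ} (hdl : 0 < dl)
    (hN : Tendsto (fun x : ℕ => Nn T (x + 1) * Real.log x ^ 2 / x) atTop (𝓝 dl))
    (hM : Zr r (fun x => Mm T (x + 1)))
    (hR : Tendsto (fun x : ℕ => Rr T (x + 1) * Real.log x ^ (r + 2) / x) atTop (𝓝 (dl * lam))) :
    (Tendsto (fun x : ℕ => Nn T (x + 1)) atTop atTop) ∧
    ∀ a b : ℕ, (a = 1 ∨ a = 3) → (b = 1 ∨ b = 3) →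
      Tendsto (fun x : ℕ => Real.log x ^ r * (delta T a b x - 1 / 2)) atTop (𝓝 (if a = b then lam / 2 else -lam / 2)) := by
  have hNtop : Tendsto (fun x : ℕ => Nn T (x + 1)) atTop atTop := by
    have h1 : Tendsto (fun x : ℕ => (x : ℝ) / Real.log x ^ 2) atTop atTop := by
      have h2 : Tendsto (fun x : ℕ => (Real.log x ^ 2 / (x : ℝ))⁻¹) atTop atTop := by
        refine Tendsto.inv_tendsto_nhdsGT_zero ?_
        rw [tendsto_nhdsWithin_iff]
        refine ⟨scale_zero 2, ?_⟩
        filter_upwards [eventually_gt_atTop 1] with n hn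
        have h3 : 0 < Real.log (n : ℝ) := Real.log_pos (by exact_mod_cast hn)
        have h4 : (0 : ℝ) < n := by exact_mod_cast (by omega : 0 < n)
        exact div_pos (by positivity) h4
      refine h2.congr fun x => ?_
      rw [inv_div]
    have h2 := hN.pos_mul_atTop hdl h1
    refine h2.congr' ?_
    filter_upwards [eventually_gt_atTop 1] with n hn
    have h3 : 0 < Real.log (n : ℝ) := Real.log_pos (by exact_mod_cast hn)
    have h4 : (0 : ℝ) < n := by exact_mod_cast (by omega : 0 < n)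
    field_simp
  refine ⟨hNtop, ?_⟩
  have hL1 : ∀ᶠ x : ℕ in atTop, (1 : ℝ) ≤ Real.log x ^ r := by
    filter_upwards [tendsto_log.eventually_ge_atTop 1] with x hx
    exact one_le_pow₀ hx
  have hgen : ∀ (Y : ℕ → ℝ) (l : ℝ), Tendsto (fun x : ℕ => Y x * Real.log x ^ (r + 2) / x) atTop (𝓝 l) →
      Tendsto (fun x : ℕ => Real.log x ^ r * Y x / Nn T (x + 1)) atTop (𝓝 (l / dl)) := by
    intro Y l hY
    refine (hY.div hN hdl.ne').congr' ?_
    filter_upwards [eventually_gt_atTop 1, hNtop.eventually_gt_atTop 0] with n hn hn2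
    have h3 : 0 < Real.log (n : ℝ) := Real.log_pos (by exact_mod_cast hn)
    have h4 : (0 : ℝ) < n := by exact_mod_cast (by omega : 0 < n)
    simp only [Pi.div_apply]
    rw [pow_add]
    field_simp
  have hLN : Tendsto (fun x : ℕ => Real.log x ^ r / Nn T (x + 1)) atTop (𝓝 0) := by
    have h := hgen (fun _ => 1) 0 (by
      refine (scale_zero (r + 2)).congr fun x => ?_
      rw [one_mul])
    rw [zero_div] at h
    refine h.congr fun x => ?_
    rw [mul_one]
  have hM' : Tendsto (fun x : ℕ => Real.log x ^ r * Mm T (x + 1) / Nn T (x + 1)) atTop (𝓝 0) := by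
    have h := hgen _ 0 hM
    rwa [zero_div] at h
  have hR' : Tendsto (fun x : ℕ => Real.log x ^ r * Rr T (x + 1) / Nn T (x + 1)) atTop (𝓝 lam) := by
    have h := hgen _ _ hR
    rwa [mul_div_cancel_left₀ _ hdl.ne'] at h
  have hb : ∀ x, _ := fun x : ℕ => trans_bd hT (x + 1)
  have hs : ∀ x, _ := fun x : ℕ => sums hT (x + 1)
  intro a b ha hb'
  simp only [delta_eq]
  rcases ha with rfl | rfl <;> rcases hb' with rfl | rfl
  · have h := lim_core (s := 1) (t := 1) (u := 1) hNtop hL1 hLN hM' hR' (C := fun x => ca T 1 (x + 1)) (P := fun x => cn T 1 1 (x + 1))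
      (fun x => by rw [(hs x).2.2.1]; ring) (fun x => (hb x).2.2.1)
    rw [if_pos rfl]
    rwa [one_mul] at h
  · have h := lim_core (s := -1) (t := -1) (u := 1) hNtop hL1 hLN hM' hR' (C := fun x => ca T 1 (x + 1)) (P := fun x => cn T 1 3 (x + 1))
      (fun x => by rw [(hs x).2.2.1]; ring) (fun x => (hb x).1)
    rw [if_neg (by norm_num)]
    rwa [neg_one_mul] at h
  · have h := lim_core (s := -1) (t := 1) (u := -1) hNtop hL1 hLN hM' hR' (C := fun x => ca T 3 (x + 1)) (P := fun x => cn T 3 1 (x + 1))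
      (fun x => by rw [(hs x).2.2.2.1]; ring) (fun x => (hb x).2.1)
    rw [if_neg (by norm_num)]
    rwa [neg_one_mul] at h
  · have h := lim_core (s := 1) (t := -1) (u := -1) hNtop hL1 hLN hM' hR' (C := fun x => ca T 3 (x + 1)) (P := fun x => cn T 3 3 (x + 1))
      (fun x => by rw [(hs x).2.2.2.1]; ring) (fun x => (hb x).2.2.2)
    rw [if_pos rfl]
    rwa [one_mul] at h

/-- infinitely many pairs -/
lemma inf_of {T : Set ℕ} (h : Tendsto (fun x : ℕ => Nn T (x + 1)) atTop atTop) : T.Infinite := by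
  classical
  intro hfin
  have h1 : ∀ x, Nn T (x + 1) ≤ hfin.toFinset.card := by
    intro x
    unfold Nn Pool.Agent.R177.TR.II
    rw [Finset.sum_boole]
    have h2 : (Finset.range (x + 1)).filter (· ∈ T) ⊆ hfin.toFinset := by
      intro n hn
      rw [Set.Finite.mem_toFinset]
      exact (Finset.mem_filter.1 hn).2
    exact_mod_cast Finset.card_le_card h2
  obtain ⟨x, hx⟩ := (h.eventually_gt_atTop (hfin.toFinset.card : ℝ)).exists
  linarith [h1 x]

theorem result {Ω : Type} [m0 : MeasurableSpace Ω] (μ : Measure Ω) [IsProbabilityMeasure μ] (ℱ : Filtration ℕ m0)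
    (A : ℕ → Set Ω) (hA : ∀ n, MeasurableSet[ℱ n] (A n))
    (Q : ℕ) (hQ : 0 < Q) (hQ6 : 6 ∣ Q) (hcop : ∀ n, ¬ Nat.Coprime n Q → A n = ∅)
    (hd : ∀ᵐ ω ∂μ, Tendsto (fun n : ℕ => (μ[(A (n + 1)).indicator (fun _ => (1 : ℝ)) | ℱ n]) ω * Real.log n)
      (atTop ⊓ 𝓟 {n : ℕ | Nat.Coprime (n + 1) Q}) (𝓝 ((Q : ℝ) / Nat.totient Q))) :
    (∀ᵐ ω ∂μ, (twins {n | ω ∈ A n}).Infinite ∧
      ∀ a b : ℕ, (a = 1 ∨ a = 3) → (b = 1 ∨ b = 3) →
        Tendsto (fun x : ℕ => delta (twins {n | ω ∈ A n}) a b x) atTop (𝓝 (1 / 2))) ∧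
    ((∀ᵐ ω ∂μ, Tendsto (fun n : ℕ => ((μ[(A (n + 1)).indicator (fun _ => (1 : ℝ)) | ℱ n]) ω * Real.log n - (Q : ℝ) / Nat.totient Q) *
        Real.log n ^ 2) (atTop ⊓ 𝓟 {n : ℕ | Nat.Coprime (n + 1) Q}) (𝓝 0)) →
      ∀ᵐ ω ∂μ,
        (∀ a b : ℕ, (a = 1 ∨ a = 3) → (b = 1 ∨ b = 3) →
          Tendsto (fun x : ℕ => Real.log x ^ 2 * (delta (twins {n | ω ∈ A n}) a b x - 1 / 2)) atTop
            (𝓝 (if a = b then -((Q : ℝ) / Nat.totient Q) ^ 2 / 4 else ((Q : ℝ) / Nat.totient Q) ^ 2 / 4))) ∧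
        ∀ᶠ x : ℕ in atTop,
          delta (twins {n | ω ∈ A n}) 1 1 x < 1 / 2 ∧ 1 / 2 < delta (twins {n | ω ∈ A n}) 1 3 x ∧
          delta (twins {n | ω ∈ A n}) 3 3 x < 1 / 2 ∧ 1 / 2 < delta (twins {n | ω ∈ A n}) 3 1 x) := by
  set c : ℝ := (Q : ℝ) / Nat.totient Q with hc
  have hcpos : 0 < c := div_pos (by exact_mod_cast hQ) (by exact_mod_cast Nat.totient_pos.2 hQ)
  have hD0 : ∀ᵐ ω ∂μ, HD μ ℱ A Q 0 ω := hd_rate (μ := μ) hA hQ hcop 0 (by
    filter_upwards [hd] with ω hω
    have h := hω.sub_const c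
    rw [sub_self] at h
    refine h.congr fun n => ?_
    rw [pow_zero, mul_one]
    rfl)
  obtain ⟨dl, hdl, h0, h2⟩ := model_lim (μ := μ) hQ6 hcop hA hQ
  have hTT : ∀ ω, twins {n | ω ∈ A n} = TT A ω := fun ω => rfl
  have hdc : 0 < dl * c ^ 2 := by positivity
  constructor
  · filter_upwards [h0 hD0] with ω ⟨hN, hM, hR⟩
    rw [hTT]
    have hT := TT_odd hQ6 hcop (A := A) ω
    have hf := final hT 0 (lam := 0) hdc hN hM (by rw [mul_zero]; exact hR)
    refine ⟨inf_of hf.1, fun a b ha hb => ?_⟩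
    have h3 := hf.2 a b ha hb
    have h4 : (if a = b then (0 : ℝ) / 2 else -0 / 2) = 0 := by split_ifs <;> simp
    rw [h4] at h3
    have h5 := h3.add_const (1 / 2)
    rw [zero_add] at h5
    refine h5.congr fun x => ?_
    rw [pow_zero]
    ring
  · intro hd2
    have hD2 : ∀ᵐ ω ∂μ, HD μ ℱ A Q 2 ω := hd_rate (μ := μ) hA hQ hcop 2 hd2
    filter_upwards [h0 hD0, h2 hD2] with ω ⟨hN, _, _⟩ ⟨hM, hR⟩
    rw [hTT]
    have hT := TT_odd hQ6 hcop (A := A) ω
    have hf := final hT 2 (lam := -c ^ 2 / 2) hdc hN hM (by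
      have : dl * c ^ 2 * (-c ^ 2 / 2) = -(dl * c ^ 4 / 2) := by ring
      rw [this]
      exact hR)
    have hlim : ∀ a b : ℕ, (a = 1 ∨ a = 3) → (b = 1 ∨ b = 3) →
        Tendsto (fun x : ℕ => Real.log x ^ 2 * (delta (TT A ω) a b x - 1 / 2)) atTop
          (𝓝 (if a = b then -c ^ 2 / 4 else c ^ 2 / 4)) := by
      intro a b ha hb
      have h3 := hf.2 a b ha hb
      have h4 : (if a = b then (-c ^ 2 / 2) / 2 else -(-c ^ 2 / 2) / 2) = if a = b then -c ^ 2 / 4 else c ^ 2 / 4 := by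
        split_ifs <;> ring
      rwa [h4] at h3
    refine ⟨hlim, ?_⟩
    have hc4 : 0 < c ^ 2 / 4 := by positivity
    have g1 := (hlim 1 1 (Or.inl rfl) (Or.inl rfl))
    have g2 := (hlim 1 3 (Or.inl rfl) (Or.inr rfl))
    have g3 := (hlim 3 3 (Or.inr rfl) (Or.inr rfl))
    have g4 := (hlim 3 1 (Or.inr rfl) (Or.inl rfl))
    rw [if_pos rfl] at g1 g3
    rw [if_neg (by norm_num)] at g2 g4
    have hneg : -c ^ 2 / 4 < 0 := by linarith
    filter_upwards [g1.eventually (gt_mem_nhds hneg), g2.eventually (lt_mem_nhds hc4), g3.eventually (gt_mem_nhds hneg),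
      g4.eventually (lt_mem_nhds hc4), tendsto_log.eventually_gt_atTop 0] with x k1 k2 k3 k4 k5
    have hp : 0 < Real.log (x : ℝ) ^ 2 := by positivity
    refine ⟨?_, ?_, ?_, ?_⟩
    · by_contra hcon
      push Not at hcon
      have := mul_nonneg hp.le (sub_nonneg.2 hcon)
      linarith
    · have := (mul_pos_iff_of_pos_left hp).1 k2
      linarith
    · by_contra hcon
      push Not at hcon
      have := mul_nonneg hp.le (sub_nonneg.2 hcon)
      linarith
    · have := (mul_pos_iff_of_pos_left hp).1 k4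
      linarith

end Pool.Agent.Results.MP_74f661_nt.TwinResiduesSievedModels
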